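import Mathlib

set_option autoImplicit false

namespace Pool.Agent.Results.MP_390e14_lc.NotVariety

universe u

/-- Algebras of the signature (implication, composition). -/
structure Alg where
  A : Type
  imp : A → A → A
  comp : A → A → A

/-- Embeddability into the full implication semigroup over a transitive relation `T`. -/
def Representable (M : Alg) : Prop :=
  ∃ (X : Type u) (T : Set (X × X)) (h : M.A → Set (X × X)),
    (∀ x y z, (x, y) ∈ T → (y, z) ∈ T → (x, z) ∈ T) ∧ Function.Injective h ∧ (∀ a, h a ⊆ T) ∧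
    (∀ a b, h (M.imp a b) = (T \ h a) ∪ h b) ∧
    ∀ a b, h (M.comp a b) = {p | ∃ y, (p.1, y) ∈ h a ∧ (y, p.2) ∈ h b}

def IsHom (M N : Alg) (f : M.A → N.A) : Prop :=
  (∀ a b, f (M.imp a b) = N.imp (f a) (f b)) ∧ ∀ a b, f (M.comp a b) = N.comp (f a) (f b)

abbrev R := Fin 8 → Fin 8 → Bool

def mk (l : List (Fin 8 × Fin 8)) : R := fun x y => (x, y) ∈ l

def T : R := fun x y => x = 0 ∨ (x, y) ∈ [(1, 6), (1, 7), (2, 4), (2, 7), (3, 5), (3, 7), (4, 4),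
  (5, 5), (6, 6), (4, 7), (5, 7), (6, 7)]

def imp (a b : R) : R := fun x y => (T x y && !a x y) || b x y

def cmp (a b : R) : R := fun x y => ∃ t, a x t ∧ b t y

def fix (a : R) : R := fun x y => a x y || (x = 1 && y = 7)

def Ok (a : R) : Prop := (∀ x y, a x y → T x y) ∧ a 0 0 ∧ a 4 4 ∧ a 5 5 ∧ a 6 6 ∧ a 4 7 ∧ a 5 7 ∧
  a 6 7 ∧ (a 0 2 ∨ a 0 3) ∧ (a 1 7 ∨ a 2 7 ∧ a 3 7) ∧ (a 1 6 ∨ a 2 4 ∧ a 3 5)

instance : DecidablePred Ok := fun _ => by unfold Ok; infer_instance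

theorem tr : ∀ x y z, T x y → T y z → T x z := by decide

theorem ok_imp {a b} (hb : Ok b) : Ok (imp a b) := by
  refine ⟨fun x y h => ?_, ?_⟩
  · simp only [imp, Bool.or_eq_true, Bool.and_eq_true] at h
    exact h.elim (·.1) (hb.1 x y)
  · simp only [imp, Bool.or_eq_true]; unfold Ok at hb; tauto

theorem ok_cmp {a b} (ha : Ok a) (hb : Ok b) : Ok (cmp a b) := by
  obtain ⟨a0, a1, a2, a3, a4, -, -, -, -, -, a5⟩ := ha
  obtain ⟨b0, b1, b2, b3, b4, b5, b6, b7, b8, -⟩ := hb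
  simp only [Ok, cmp, decide_eq_true_eq] at *
  exact ⟨fun x y ⟨t, h1, h2⟩ => tr _ _ _ (a0 _ _ h1) (b0 _ _ h2), ⟨0, a1, b1⟩,
    ⟨4, a2, b2⟩, ⟨5, a3, b3⟩, ⟨6, a4, b4⟩, ⟨4, a2, b5⟩, ⟨5, a3, b6⟩, ⟨6, a4, b7⟩,
    b8.imp (⟨0, a1, ·⟩) (⟨0, a1, ·⟩), a5.imp (⟨6, ·, b7⟩) fun h => ⟨⟨4, h.1, b5⟩, 5, h.2, b6⟩,
    a5.imp (⟨6, ·, b4⟩) fun h => ⟨⟨4, h.1, b2⟩, 5, h.2, b3⟩⟩

theorem ok_fix {a} (ha : Ok a) : Ok (fix a) := by
  refine ⟨fun x y h => ?_, ?_⟩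
  · simp only [fix, Bool.or_eq_true, Bool.and_eq_true, decide_eq_true_eq] at h
    rcases h with h | ⟨rfl, rfl⟩
    exacts [ha.1 x y h, rfl]
  · simp only [fix, Bool.or_eq_true]; unfold Ok at ha; tauto

def M : Alg := ⟨{a // Ok a}, fun a b => ⟨imp a b, ok_imp b.2⟩, fun a b => ⟨cmp a b, ok_cmp a.2 b.2⟩⟩

def N : Alg := ⟨{a // Ok a ∧ a 1 7}, fun a b => ⟨imp a b, ok_imp b.2.1, by simp [imp, b.2.2]⟩,
  fun a b => ⟨fix (cmp a b), ok_fix (ok_cmp a.2.1 b.2.1), by simp [fix]⟩⟩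

instance : DecidableEq N.A := inferInstanceAs (DecidableEq {a // Ok a ∧ a 1 7})

def el (l : List (Fin 8 × Fin 8)) (h : Ok (mk (l ++ [(0, 0), (4, 4), (5, 5), (6, 6), (4, 7), (5, 7),
  (6, 7), (1, 7), (2, 4), (3, 5)]))) : N.A := ⟨_, h, by simp [mk]⟩

theorem not_rep : ¬ Representable.{u} N := by
  rintro ⟨X, T, h, -, h1, h2, h3, h4⟩
  let a := el [(0, 2)] (by decide)
  let c₁ := el [(0, 1), (0, 2)] (by decide)
  let c₂ := el [(0, 1), (0, 3)] (by decide)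
  let g := el [(0, 2), (0, 7), (2, 7), (3, 7)] (by decide)
  have top : h (N.imp a a) = T := by rw [h3]; simpa using h2 a
  have k : ∀ x y z, N.imp x (N.imp y z) = N.imp a a → ∀ p ∈ h x, p ∈ h y → p ∈ h z :=
    fun x y z e p hx hy => by
      have := congrArg h e
      rw [top, h3, h3] at this
      simpa [hx, hy] using this.ge (h2 _ hx)
  refine absurd (h1 (a₁ := N.imp (N.comp c₁ a) (N.imp (N.imp (N.comp a a) (N.comp g a))
    (N.comp g a))) (a₂ := N.imp a a) ?_) (by decide +kernel)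
  rw [top, h3, h3, h3]
  refine subset_antisymm (by have := h2 (N.comp g a); grind) fun ⟨w, z⟩ hp => ?_
  by_contra hn
  simp only [Set.mem_union, Set.mem_diff, hp, true_and, not_or, not_not] at hn
  obtain ⟨e1, e2, e3⟩ := hn
  rw [h4] at e1 e3
  obtain ⟨x, f1, f2⟩ := e1
  have f3 := k a a (N.comp a a) (by decide +kernel) _ f2 f2
  have f4 : (w, x) ∉ h a := fun e => e3 (by
    simpa [h4] using (by simpa [h4] using e2 : ∀ x, (w, x) ∈ h a → (x, z) ∈ h a → _) x e f2)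
  have f5 := k c₁ (N.imp c₂ a) a (by decide +kernel) _ f1
  rw [h3] at f5
  have f6 : (w, x) ∈ h c₂ := by_contra fun e => f4 (f5 (Or.inl ⟨h2 _ f1, e⟩))
  rw [h4] at f3
  obtain ⟨y, f7, f8⟩ := f3
  exact e3 ⟨y, k (N.comp c₁ a) (N.comp c₂ a) g (by decide +kernel) _
    (by rw [h4]; exact ⟨x, f1, f7⟩) (by rw [h4]; exact ⟨x, f6, f7⟩), f8⟩

theorem result : ∃ (M N : Alg) (f : M.A → N.A), Function.Surjective f ∧ IsHom M N f ∧
    Representable.{0} M ∧ ¬ Representable.{u} N := by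
  refine ⟨M, N, fun a => ⟨fix a.1, ok_fix a.2, by simp [fix]⟩, fun b => ⟨⟨b.1, b.2.1⟩,
    Subtype.ext (funext₂ fun x y => ?_)⟩, ⟨fun a b => Subtype.ext (funext₂ fun x y => ?_),
    fun a b => Subtype.ext (funext₂ fun x y => ?_)⟩, ⟨Fin 8, {p | T p.1 p.2},
    fun a => {p | a.1 p.1 p.2}, tr, fun a b e => Subtype.ext (funext₂ fun x y =>
      Bool.eq_iff_iff.2 (Set.ext_iff.1 e (x, y))), fun a p => a.2.1 _ _, fun a b => ?_,
    fun a b => ?_⟩, not_rep⟩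
  · simp only [fix, Bool.or_eq_left_iff_imp, Bool.and_eq_true, decide_eq_true_eq]
    rintro ⟨rfl, rfl⟩
    exact b.2.2
  · simp only [M, N, fix, imp]; grind
  · obtain ⟨a, a0, -, -, -, -, -, -, -, a1, -⟩ := a
    obtain ⟨b, b0, -, -, -, -, -, -, -, -, b1, -⟩ := b
    rw [Bool.eq_iff_iff]
    simp only [M, N, fix, cmp, Bool.or_eq_true, decide_eq_true_eq, Bool.and_eq_true]
    refine ⟨Or.imp_left fun ⟨t, h1, h2⟩ => ⟨t, .inl h1, .inl h2⟩, ?_⟩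
    rintro (⟨t, h1 | ⟨rfl, rfl⟩, h2 | ⟨h2, rfl⟩⟩ | h)
    · exact .inl ⟨t, h1, h2⟩
    · subst h2
      obtain rfl : x = 0 := (by decide : ∀ x, T x 1 → x = 0) x (a0 _ _ h1)
      rcases b1 with b1 | b1
      exacts [.inl ⟨1, h1, b1⟩, .inl (a1.elim (⟨2, ·, b1.1⟩) (⟨3, ·, b1.2⟩))]
    · exact absurd (b0 _ _ h2) ((by decide : ∀ y, ¬ T 7 y) y)
    · cases h2
    · exact .inr h
  · ext p; simp [M, imp]
  · ext p; simp [M, cmp]

end Pool.Agent.Results.MP_390e14_lc.NotVariety
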